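import Pool.Agent.H95.VG.Targets5

/-!
# VG, module CNT: weakly isolated zeros are at most `d`
-/

set_option autoImplicit false

open MeasureTheory Set Filter Topology
open scoped ENNReal NNReal ContDiff

namespace Pool.Agent.H48.VG

open Pool.Agent.H95.VG

/-- a continuous map without zeros on a compact set is bounded away from zero -/
lemma exists_low {E F : Type*} [TopologicalSpace E] [NormedAddCommGroup F] {K : Set E}
    (hK : IsCompact K) {f : E → F} (hf : ContinuousOn f K) (h0 : ∀ x ∈ K, f x ≠ 0) :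
    ∃ δ : ℝ, 0 < δ ∧ ∀ x ∈ K, δ ≤ ‖f x‖ := by
  rcases K.eq_empty_or_nonempty with he | hne
  · exact ⟨1, one_pos, fun x hx => by rw [he] at hx; exact absurd hx (notMem_empty x)⟩
  · obtain ⟨x, hx, hmin⟩ := hK.exists_isMinOn hne hf.norm
    exact ⟨‖f x‖, norm_pos_iff.2 (h0 x hx), fun y hy => hmin hy⟩

theorem cnt (hMNP : T_MNP) : T_CNT := by
  intro N U H P r δ d T hN hU hr hδ hball hH hd hT
  classical
  -- disjoint balls
  obtain ⟨e, he0, he⟩ : ∃ e : ℝ, 0 < e ∧ ∀ q ∈ T, Metric.closedBall q e ⊆ Metric.ball P r ∧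
      ∀ q' ∈ T, q ≠ q' → 2 * e ≤ dist q q' := by
    have h1 : ∀ᶠ e in 𝓝[>] (0 : ℝ), ∀ q ∈ T, Metric.closedBall q e ⊆ Metric.ball P r ∧
        ∀ q' ∈ T, q ≠ q' → 2 * e ≤ dist q q' := by
      rw [Filter.eventually_all_finset]
      intro q hq
      have h2 : ∀ᶠ e in 𝓝[>] (0 : ℝ), Metric.closedBall q e ⊆ Metric.ball P r := by
        have h3 := (hT q hq).1
        have h4 : 0 < r - dist q P := by
          rw [Metric.mem_ball] at h3
          linarith
        filter_upwards [Ioo_mem_nhdsGT h4] with e he z hz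
        rw [Metric.mem_closedBall] at hz
        rw [Metric.mem_ball]
        have := dist_triangle z q P
        linarith [he.2]
      have h5 : ∀ᶠ e in 𝓝[>] (0 : ℝ), ∀ q' ∈ T, q ≠ q' → 2 * e ≤ dist q q' := by
        rw [Filter.eventually_all_finset]
        intro q' _
        by_cases hqq : q = q'
        · exact Eventually.of_forall fun e h => absurd hqq h
        · have h4 : 0 < dist q q' / 2 := half_pos (dist_pos.2 hqq)
          filter_upwards [Ioo_mem_nhdsGT h4] with e he _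
          linarith [he.2]
      exact h2.and h5
    obtain ⟨e, he, he0⟩ := (h1.and self_mem_nhdsWithin).exists
    exact ⟨e, he0, he⟩
  have hρ : ∀ q : V N, ∃ ρ : ℝ, q ∈ T → 0 < ρ ∧ ρ < e ∧ ∀ Z ∈ Metric.sphere q ρ, H Z ≠ 0 := by
    intro q
    by_cases hq : q ∈ T
    · obtain ⟨ρ, h1, h2, h3⟩ := (hT q hq).2.2 e he0
      exact ⟨ρ, fun _ => ⟨h1, h2, h3⟩⟩
    · exact ⟨0, fun h => absurd h hq⟩
  choose ρ hρ using hρ
  have hcb : ∀ q ∈ T, Metric.closedBall q (ρ q) ⊆ Metric.ball P r := by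
    intro q hq
    exact (Metric.closedBall_subset_closedBall (hρ q hq).2.1.le).trans (he q hq).1
  have hcU : ∀ q ∈ T, Metric.closedBall q (ρ q) ⊆ U := fun q hq =>
    (hcb q hq).trans (Metric.ball_subset_closedBall.trans hball)
  obtain ⟨δ', hδ'0, hδ', hsph⟩ : ∃ δ' : ℝ, 0 < δ' ∧ δ' ≤ δ ∧
      ∀ q ∈ T, ∀ Z ∈ Metric.sphere q (ρ q), δ' ≤ ‖H Z‖ := by
    have h1 : ∀ᶠ δ' in 𝓝[>] (0 : ℝ), ∀ q ∈ T, ∀ Z ∈ Metric.sphere q (ρ q), δ' ≤ ‖H Z‖ := by
      rw [Filter.eventually_all_finset]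
      intro q hq
      obtain ⟨δ₁, h2, h3⟩ := exists_low (isCompact_sphere q (ρ q))
        (hH.continuousOn.mono (Metric.sphere_subset_closedBall.trans (hcU q hq))) (hρ q hq).2.2
      filter_upwards [Ioo_mem_nhdsGT h2] with δ' h4 Z hZ
      exact h4.2.le.trans (h3 Z hZ)
    have h2 : ∀ᶠ δ' in 𝓝[>] (0 : ℝ), δ' ≤ δ := by
      filter_upwards [Ioo_mem_nhdsGT hδ] with x hx
      exact hx.2.le
    obtain ⟨δ', ⟨h3, h4⟩, h5⟩ := ((h1.and h2).and self_mem_nhdsWithin).exists
    exact ⟨δ', h5, h4, h3⟩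
  have hpre : ∀ᵐ w ∂(volume.restrict (Metric.ball (0 : V N) δ')), ∀ q ∈ T,
      ∃ Z ∈ Metric.ball q (ρ q), H Z = w := by
    have h1 : ∀ q ∈ T, ∀ᵐ w ∂(volume.restrict (Metric.ball (0 : V N) δ')),
        ∃ Z ∈ Metric.ball q (ρ q), H Z = w := fun q hq =>
      (hMNP N U H q (ρ q) δ' hN hU (hρ q hq).1 hδ'0 (hcU q hq) hH (hT q hq).2.1
        (hsph q hq)).2
    exact (Filter.eventually_all_finset T).2 h1
  have hcard : ∀ᵐ w ∂(volume.restrict (Metric.ball (0 : V N) δ')),
      {Z | Z ∈ Metric.ball P r ∧ H Z = w}.encard = d :=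
    ae_restrict_of_ae_restrict_of_subset (Metric.ball_subset_ball hδ') hd
  have hne : (ae (volume.restrict (Metric.ball (0 : V N) δ'))).NeBot := by
    rw [ae_neBot]
    intro h0
    rw [Measure.restrict_eq_zero] at h0
    have := Metric.measure_ball_pos volume (0 : V N) hδ'0
    rw [h0] at this
    exact lt_irrefl _ this
  obtain ⟨w, hw1, hw2⟩ := (hpre.and hcard).exists
  choose! Zq hZq using hw1
  have h1 : (T : Set (V N)).encard ≤ {Z | Z ∈ Metric.ball P r ∧ H Z = w}.encard := by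
    have hinj : InjOn Zq T := by
      intro q hq q' hq' heq
      by_contra hne
      have h2 := (he q hq).2 q' hq' hne
      have h3 := (hZq q hq).1
      have h4 := (hZq q' hq').1
      rw [← heq] at h4
      rw [Metric.mem_ball] at h3 h4
      have h5 := dist_triangle_left q q' (Zq q)
      have h6 := (hρ q hq).2.1
      have h7 := (hρ q' hq').2.1
      linarith
    rw [← hinj.encard_image]
    apply encard_le_encard
    rintro _ ⟨q, hq, rfl⟩
    exact ⟨hcb q hq (Metric.ball_subset_closedBall (hZq q hq).1), (hZq q hq).2⟩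
  rw [hw2, encard_coe_eq_coe_finsetCard] at h1
  exact_mod_cast h1

end Pool.Agent.H48.VG
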