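import Pool.Agent.H95.VG.Targets5
import Pool.Agent.H65.VG.ARE

/-!
# VG, module ISO: isolated zeros of the system are weakly isolated zeros of the combination
-/

set_option autoImplicit false

open MeasureTheory Set Filter Topology
open scoped ENNReal NNReal ContDiff

namespace Pool.Agent.H48.VG

open Pool.Agent.H95.VG Pool.Agent.H65.VG

lemma differentiableOn_HB {N m k : ℕ} {U : Set (V N)} (B : Fin N → Fin m ⊕ Fin k → ℂ)
    {G : V N → V m} {Y : V N → V k} (w : V k) (hG : DifferentiableOn ℂ G U)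
    (hY : DifferentiableOn ℂ Y U) : DifferentiableOn ℂ (HB B G Y w) U := by
  rw [differentiableOn_pi]
  intro i
  unfold HB
  have hG' := differentiableOn_pi.1 hG
  have hY' := differentiableOn_pi.1 hY
  apply DifferentiableOn.add
  · exact DifferentiableOn.fun_sum fun j _ => (hG' j).const_mul _
  · exact DifferentiableOn.fun_sum fun j _ => ((hY' j).sub_const _).const_mul _

theorem iso : T_ISO := by
  intro N m k U G Y w B q ε₁ hN hU hG hY hB hq hε₁ hiso ε hε
  obtain ⟨e₀, he₀, hball⟩ := Metric.isOpen_iff.1 hU q hq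
  set e := min e₀ (min ε ε₁) with he
  have he0 : 0 < e := lt_min he₀ (lt_min hε hε₁)
  have hH := differentiableOn_HB B w hG hY
  obtain ⟨C, -, hCi, hC⟩ := exists_cover hU hH
  set S : Set (V N) := {Z | Z ∈ Metric.ball q e ∧ Z ≠ q ∧ HB B G Y w Z = 0} with hS
  have hSc : S.Countable := by
    have h1 : S ⊆ ⋃ i, S ∩ C i := by
      intro Z hZ
      obtain ⟨h2, h3, h4⟩ := hZ
      have hZU : Z ∈ U := hball (Metric.ball_subset_ball (min_le_left _ _) h2)
      have h5 : Z ∈ Metric.ball q ε₁ :=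
        Metric.ball_subset_ball ((min_le_right _ _).trans (min_le_right _ _)) h2
      have h6 : G Z ≠ 0 ∨ Y Z ≠ w := by
        by_contra h7
        push Not at h7
        exact h3 (hiso Z h5 h7.1 h7.2)
      have h8 := hC ⟨hZU, hB Z hZU h6 h4⟩
      obtain ⟨i, hi⟩ := mem_iUnion.1 h8
      exact mem_iUnion.2 ⟨i, ⟨h2, h3, h4⟩, hi⟩
    refine (countable_iUnion fun i => ?_).mono h1
    apply Set.Subsingleton.countable
    intro Z hZ Z' hZ'
    exact hCi i hZ.2 hZ'.2 (by rw [hZ.1.2.2, hZ'.1.2.2])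
  have hR : (dist q '' S).Countable := hSc.image _
  obtain ⟨ρ, hρ1, hρ2⟩ := (hR.dense_compl ℝ).exists_mem_open isOpen_Ioo
    (⟨e / 2, by constructor <;> linarith⟩ : (Ioo (0 : ℝ) e).Nonempty)
  refine ⟨ρ, hρ2.1, hρ2.2.trans_le ((min_le_right _ _).trans (min_le_left _ _)), ?_, ?_⟩
  · intro Z hZ
    apply hball
    rw [Metric.mem_closedBall] at hZ
    rw [Metric.mem_ball]
    exact lt_of_le_of_lt hZ (hρ2.2.trans_le (min_le_left _ _))
  · intro Z hZ h0
    rw [Metric.mem_sphere] at hZ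
    apply hρ1
    refine ⟨Z, ⟨?_, ?_, h0⟩, ?_⟩
    · rw [Metric.mem_ball, hZ]
      exact hρ2.2
    · rintro rfl
      rw [dist_self] at hZ
      linarith [hρ2.1]
    · rw [dist_comm]
      exact hZ

end Pool.Agent.H48.VG
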