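import Pool.Agent.H95.VG.Targets5
import Pool.Agent.H65.VG.ARE

/-!
# VG, module MNP: a zero produces preimages of all small values (minimum principle)
-/

set_option autoImplicit false

open MeasureTheory Set Filter Topology
open scoped ENNReal NNReal ContDiff

namespace Pool.Agent.H48.VG

open Pool.Agent.H95.VG Pool.Agent.H65.VG

variable {n : ℕ}

/-- second derivative test (necessary condition) -/
lemma second_nonneg {f : V n → ℝ} {z : V n} (hf : ContDiffAt ℝ 2 f z) (hmin : IsLocalMin f z)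
    (v : V n) : 0 ≤ fderiv ℝ (fun x => fderiv ℝ f x v) z v := by
  set φ : ℝ → ℝ := fun t => f (z + t • v) with hφ
  have hline : ∀ t : ℝ, HasDerivAt (fun t : ℝ => z + t • v) v t := by
    intro t
    have h := ((hasDerivAt_id t).smul_const v).const_add z
    simpa using h
  have hcont : ContinuousAt (fun t : ℝ => z + t • v) 0 := (hline 0).continuousAt
  have ht0 : z + (0 : ℝ) • v = z := by simp
  have htend : Tendsto (fun t : ℝ => z + t • v) (𝓝 0) (𝓝 z) := by
    have := hcont.tendsto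
    rwa [ht0] at this
  have hdiff : ∀ᶠ x in 𝓝 z, DifferentiableAt ℝ f x := by
    have h1 : ∀ᶠ x in 𝓝 z, ContDiffAt ℝ 2 f x := hf.eventually (by simp)
    filter_upwards [h1] with x hx
    exact hx.differentiableAt (by norm_num)
  have hder : deriv φ =ᶠ[𝓝 0] fun t => fderiv ℝ f (z + t • v) v := by
    filter_upwards [htend.eventually hdiff] with t ht
    exact (ht.hasFDerivAt.comp_hasDerivAt t (hline t)).deriv
  have hd2 : DifferentiableAt ℝ (fun x => fderiv ℝ f x v) z := by
    have h1 : ContDiffAt ℝ 1 (fderiv ℝ f) z := hf.fderiv_right (by norm_num)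
    exact (h1.differentiableAt (by norm_num)).clm_apply (differentiableAt_const _)
  have hder2 : deriv (deriv φ) 0 = fderiv ℝ (fun x => fderiv ℝ f x v) z v := by
    rw [hder.deriv_eq]
    have h1 : HasFDerivAt (fun x => fderiv ℝ f x v) (fderiv ℝ (fun x => fderiv ℝ f x v) z)
        (z + (0 : ℝ) • v) := by
      rw [ht0]
      exact hd2.hasFDerivAt
    exact (h1.comp_hasDerivAt (0 : ℝ) (hline 0)).deriv
  have hφmin : IsLocalMin φ 0 := by
    have h1 : ∀ᶠ x in 𝓝 z, f z ≤ f x := hmin
    have h2 := htend.eventually h1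
    have h3 : φ 0 = f z := by simp [hφ]
    change ∀ᶠ t in 𝓝 0, φ 0 ≤ φ t
    rw [h3]
    exact h2
  rw [← hder2]
  by_contra hneg
  push Not at hneg
  have hmax : IsLocalMax φ 0 := by
    apply isLocalMax_of_deriv_deriv_neg hneg hφmin.deriv_eq_zero
    have h1 : DifferentiableAt ℝ f z := hf.differentiableAt (by norm_num)
    have h2 : ContinuousAt f (z + (0 : ℝ) • v) := by
      rw [ht0]
      exact h1.continuousAt
    exact ContinuousAt.comp (f := fun t : ℝ => z + t • v) h2 hcont
  have hconst : φ =ᶠ[𝓝 0] fun _ => φ 0 := by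
    have h1 : ∀ᶠ t in 𝓝 (0 : ℝ), φ 0 ≤ φ t := hφmin
    have h2 : ∀ᶠ t in 𝓝 (0 : ℝ), φ t ≤ φ 0 := hmax
    filter_upwards [h1, h2] with t h3 h4
    exact le_antisymm h4 h3
  have h1 : deriv φ =ᶠ[𝓝 0] fun _ => 0 := by
    have h2 := hconst.deriv
    filter_upwards [h2] with t ht
    rw [ht, deriv_const]
  have h2 : deriv (deriv φ) 0 = 0 := by
    rw [h1.deriv_eq, deriv_const]
  rw [h2] at hneg
  exact lt_irrefl _ hneg

/-- the Levi form at a local minimum is nonnegative -/
lemma lev_nonneg_of_min {f : V n → ℝ} {z : V n} (hf : ContDiffAt ℝ 2 f z)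
    (hmin : IsLocalMin f z) (v : V n) : 0 ≤ lev f z v := by
  unfold lev
  have h1 := second_nonneg hf hmin v
  have h2 := second_nonneg hf hmin (Complex.I • v)
  rw [smul_eq_mul]
  positivity

/-- the Levi form of a difference -/
lemma lev_sub_smul {f g : V n → ℝ} {z : V n} (hf : ContDiffAt ℝ 2 f z) (hg : ContDiffAt ℝ 2 g z)
    (c : ℝ) (v : V n) : lev (fun x => f x - c * g x) z v = lev f z v - c * lev g z v := by
  have key : ∀ u : V n, fderiv ℝ (fun x => fderiv ℝ (fun x => f x - c * g x) x u) z u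
      = fderiv ℝ (fun x => fderiv ℝ f x u) z u - c * fderiv ℝ (fun x => fderiv ℝ g x u) z u := by
    intro u
    have hdf : ∀ᶠ x in 𝓝 z, DifferentiableAt ℝ f x := by
      filter_upwards [hf.eventually (by simp)] with x hx
      exact hx.differentiableAt (by norm_num)
    have hdg : ∀ᶠ x in 𝓝 z, DifferentiableAt ℝ g x := by
      filter_upwards [hg.eventually (by simp)] with x hx
      exact hx.differentiableAt (by norm_num)
    have h1 : (fun x => fderiv ℝ (fun x => f x - c * g x) x u) =ᶠ[𝓝 z]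
        fun x => fderiv ℝ f x u - c * fderiv ℝ g x u := by
      filter_upwards [hdf, hdg] with x hx1 hx2
      have h2 : HasFDerivAt (fun x => f x - c * g x) (fderiv ℝ f x - c • fderiv ℝ g x) x :=
        hx1.hasFDerivAt.sub (hx2.hasFDerivAt.const_mul c)
      rw [h2.fderiv]
      simp
    rw [h1.fderiv_eq]
    have hd2f : DifferentiableAt ℝ (fun x => fderiv ℝ f x u) z := by
      have h1 : ContDiffAt ℝ 1 (fderiv ℝ f) z := hf.fderiv_right (by norm_num)
      exact (h1.differentiableAt (by norm_num)).clm_apply (differentiableAt_const _)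
    have hd2g : DifferentiableAt ℝ (fun x => fderiv ℝ g x u) z := by
      have h1 : ContDiffAt ℝ 1 (fderiv ℝ g) z := hg.fderiv_right (by norm_num)
      exact (h1.differentiableAt (by norm_num)).clm_apply (differentiableAt_const _)
    have h3 : HasFDerivAt (fun x => fderiv ℝ f x u - c * fderiv ℝ g x u)
        (fderiv ℝ (fun x => fderiv ℝ f x u) z - c • fderiv ℝ (fun x => fderiv ℝ g x u) z) z :=
      hd2f.hasFDerivAt.sub (hd2g.hasFDerivAt.const_mul c)
    rw [h3.fderiv]
    simp
  unfold lev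
  rw [key v, key (Complex.I • v)]
  simp only [smul_eq_mul]
  ring

/-- nondegenerate points are mapped openly -/
lemma map_nhds {O : Set (V n)} {Y : V n → V n} (hO : IsOpen O)
    (hY : DifferentiableOn ℂ Y O) {z : V n} (hz : z ∈ O) (hd : (jac Y z).det ≠ 0) :
    map Y (𝓝 z) = 𝓝 (Y z) := by
  have hc : ContDiffAt ℂ 1 Y z :=
    ((contDiffOn_nat hO 1 Y hY).contDiffAt (hO.mem_nhds hz))
  have hs : HasStrictFDerivAt Y (fderiv ℂ Y z) z := hc.hasStrictFDerivAt (by simp)
  have hu : (fderiv ℂ Y z).det ≠ 0 := by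
    have : (fderiv ℂ Y z).det = (jac Y z).det := (det_jac_eq Y z).symm
    rw [this]
    exact hd
  have hs' : HasStrictFDerivAt Y
      ((fderiv ℂ Y z).toContinuousLinearEquivOfDetNeZero hu : V n →L[ℂ] V n) z := by
    have : ((fderiv ℂ Y z).toContinuousLinearEquivOfDetNeZero hu : V n →L[ℂ] V n) = fderiv ℂ Y z := by
      ext v : 1
      rfl
    rw [this]
    exact hs
  exact hs'.map_nhds_eq_of_equiv

theorem mnp (hNSQ : T_NSQ) (hCHN : T_CHN) (hDEG : T_DEG) : T_MNP := by
  intro N U H q ρ δ hN hU hρ hδ hball hH hq hsph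
  obtain ⟨hns, -, hnz, hlev, -, hnorm⟩ := hNSQ N
  have hnonneg : ∀ z : V N, 0 ≤ nsq z := fun z => (sq_nonneg _).trans (hnorm z).1
  have hN0 : (0 : ℝ) < N := by exact_mod_cast hN
  have hns2 : ContDiff ℝ 2 (nsq (n := N)) := by exact_mod_cast contDiff_infty.1 hns 2
  -- part one
  have key : ∃ Z ∈ Metric.ball q ρ, ‖H Z‖ < δ ∧ (jac H Z).det ≠ 0 := by
    obtain ⟨ε, hε, hε'⟩ : ∃ ε : ℝ, 0 < ε ∧ ε * N * ρ ^ 2 < δ ^ 2 := by
      refine ⟨δ ^ 2 / (2 * (N * ρ ^ 2)), by positivity, ?_⟩
      have h1 : δ ^ 2 / (2 * (N * ρ ^ 2)) * N * ρ ^ 2 = δ ^ 2 / 2 := by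
        field_simp
      rw [h1]
      have : 0 < δ ^ 2 := by positivity
      linarith
    set g : V N → ℝ := fun Z => nsq (H Z) - ε * nsq (Z - q) with hg
    have hnc : Continuous (nsq (n := N)) := hns.continuous
    have hgc : ContinuousOn g (Metric.closedBall q ρ) := by
      apply ContinuousOn.sub
      · exact hnc.comp_continuousOn (hH.continuousOn.mono hball)
      · exact (continuous_const.mul (hnc.comp (continuous_id.sub continuous_const))).continuousOn
    obtain ⟨Z, hZ, hZmin⟩ := (isCompact_closedBall q ρ).exists_isMinOn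
      ⟨q, Metric.mem_closedBall_self hρ.le⟩ hgc
    have hgq : g q = 0 := by
      simp only [hg, hq, sub_self]
      rw [(hnz 0).2 rfl]
      ring
    have hgZ : g Z ≤ 0 := by
      have := hZmin (Metric.mem_closedBall_self hρ.le : q ∈ Metric.closedBall q ρ)
      have h2 : g Z ≤ g q := this
      rwa [hgq] at h2
    have hbd : ∀ z ∈ Metric.closedBall q ρ, ε * nsq (z - q) ≤ ε * N * ρ ^ 2 := by
      intro z hz
      have h1 : ‖z - q‖ ≤ ρ := by
        rwa [Metric.mem_closedBall, dist_eq_norm] at hz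
      have h2 := (hnorm (z - q)).2
      have h3 : ‖z - q‖ ^ 2 ≤ ρ ^ 2 := by gcongr
      calc ε * nsq (z - q) ≤ ε * (N * ‖z - q‖ ^ 2) := by gcongr
        _ ≤ ε * (N * ρ ^ 2) := by gcongr
        _ = _ := by ring
    have hHZ : ‖H Z‖ < δ := by
      have h1 : nsq (H Z) ≤ ε * nsq (Z - q) := by
        have : nsq (H Z) - ε * nsq (Z - q) ≤ 0 := hgZ
        linarith
      have h2 := hbd Z hZ
      have h3 : ‖H Z‖ ^ 2 < δ ^ 2 := lt_of_le_of_lt ((hnorm _).1.trans (h1.trans h2)) hε'
      exact lt_of_pow_lt_pow_left₀ 2 hδ.le h3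
    have hZb : Z ∈ Metric.ball q ρ := by
      rcases lt_or_eq_of_le (Metric.mem_closedBall.1 hZ) with h | h
      · exact h
      · exfalso
        have := hsph Z h
        linarith
    refine ⟨Z, hZb, hHZ, ?_⟩
    have hZU : Z ∈ U := hball hZ
    have hUn : U ∈ 𝓝 Z := hU.mem_nhds hZU
    have hHs : ContDiffOn ℂ 2 H U := by exact_mod_cast contDiffOn_nat hU 2 H hH
    have hHs2 : ContDiffAt ℝ 2 H Z := (hHs.contDiffAt hUn).restrict_scalars ℝ
    have hc1 : ContDiffAt ℝ 2 (fun Z => nsq (H Z)) Z := by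
      have h1 : ContDiffAt ℝ 2 (nsq (n := N)) (H Z) := hns2.contDiffAt
      exact h1.comp Z hHs2
    have hc2 : ContDiffAt ℝ 2 (fun Z => nsq (Z - q)) Z := by
      have h1 : ContDiffAt ℝ 2 (nsq (n := N)) (Z - q) :=
        hns2.contDiffAt
      exact ContDiffAt.comp Z (f := fun Z => Z - q) h1 (contDiffAt_id.sub contDiffAt_const)
    have hlm : IsLocalMin g Z := by
      have h1 : Metric.closedBall q ρ ∈ 𝓝 Z :=
        mem_of_superset (Metric.isOpen_ball.mem_nhds hZb) Metric.ball_subset_closedBall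
      exact hZmin.isLocalMin h1
    have hgc2 : ContDiffAt ℝ 2 g Z := hc1.sub (contDiffAt_const.mul hc2)
    have hinj : ∀ v : V N, fderiv ℂ H Z v = 0 → v = 0 := by
      intro v hv
      have h1 := lev_nonneg_of_min hgc2 hlm v
      rw [hg, lev_sub_smul hc1 hc2] at h1
      have h2 : lev (fun Z => nsq (H Z)) Z v = nsq (fderiv ℂ H Z v) := by
        rw [(hCHN N U H hU hH Z hZU v).2.2.2 nsq
          hns2.contDiffAt, hlev]
      have h3 : lev (fun Z => nsq (Z - q)) Z v = nsq v := by
        have hY : DifferentiableOn ℂ (fun Z : V N => Z - q) univ :=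
          (differentiable_id.sub_const q).differentiableOn
        rw [(hCHN N univ (fun Z => Z - q) isOpen_univ hY Z (mem_univ _) v).2.2.2 nsq
          hns2.contDiffAt, hlev]
        have h4 : fderiv ℂ (fun Z : V N => Z - q) Z = ContinuousLinearMap.id ℂ (V N) := by
          rw [fderiv_sub_const]
          exact fderiv_fun_id
        rw [h4]
        rfl
      rw [h2, h3, hv, (hnz 0).2 rfl] at h1
      have h5 : nsq v = 0 := by
        have h6 := hnonneg v
        nlinarith
      exact (hnz v).1 h5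
    intro hdet
    obtain ⟨v, hv0, hv⟩ := Matrix.exists_mulVec_eq_zero_iff.2 hdet
    apply hv0
    apply hinj
    have h1 : (jac H Z).mulVec v = fderiv ℂ H Z v := by
      have h2 : fderiv ℂ H Z v = ∑ k, v k • fderiv ℂ H Z (ek k) := by
        conv_lhs => rw [pi_eq_sum_univ' v]
        rw [map_sum]
        refine Finset.sum_congr rfl fun k _ => ?_
        rw [map_smul]
        rfl
      rw [h2]
      ext i
      rw [Matrix.mulVec, dotProduct, Finset.sum_apply]
      refine Finset.sum_congr rfl fun k _ => ?_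
      rw [Pi.smul_apply, smul_eq_mul, mul_comm]
      rfl
    rw [← h1, hv]
  refine ⟨key, ?_⟩
  obtain ⟨d, hd, -⟩ := hDEG N U H q ρ δ hN hU hρ hδ hball hH hsph
  obtain ⟨Z, hZb, hHZ, hdet⟩ := key
  have hZU : Z ∈ U := hball (Metric.ball_subset_closedBall hZb)
  have hmap := map_nhds hU hH hZU hdet
  have himg : H '' Metric.ball q ρ ∈ 𝓝 (H Z) := by
    rw [← hmap]
    exact image_mem_map (Metric.isOpen_ball.mem_nhds hZb)
  have hV : H '' Metric.ball q ρ ∩ Metric.ball (0 : V N) δ ∈ 𝓝 (H Z) :=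
    inter_mem himg (Metric.isOpen_ball.mem_nhds (by simpa using hHZ))
  have hd1 : 1 ≤ d := by
    have h1 : ∀ᵐ w ∂(volume : Measure (V N)), w ∈ Metric.ball (0 : V N) δ →
        {Z | Z ∈ Metric.ball q ρ ∧ H Z = w}.encard = d :=
      (ae_restrict_iff' measurableSet_ball).1 hd
    have h2 : ∃ w ∈ H '' Metric.ball q ρ ∩ Metric.ball (0 : V N) δ,
        {Z | Z ∈ Metric.ball q ρ ∧ H Z = w}.encard = d := by
      by_contra hno
      push Not at hno
      have h3 : ∀ᵐ w ∂(volume : Measure (V N)),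
          w ∉ H '' Metric.ball q ρ ∩ Metric.ball (0 : V N) δ := by
        filter_upwards [h1] with w hw hw2
        exact hno w hw2 (hw hw2.2)
      have h4 : volume (H '' Metric.ball q ρ ∩ Metric.ball (0 : V N) δ) = 0 :=
        measure_eq_zero_iff_ae_notMem.2 h3
      have h5 : 0 < volume (H '' Metric.ball q ρ ∩ Metric.ball (0 : V N) δ) :=
        Measure.measure_pos_of_mem_nhds _ hV
      rw [h4] at h5
      exact lt_irrefl _ h5
    obtain ⟨w, ⟨⟨Z', hZ', hw⟩, -⟩, hcard⟩ := h2
    by_contra h0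
    have h00 : d = 0 := by omega
    rw [h00, Nat.cast_zero, encard_eq_zero] at hcard
    have : Z' ∈ {Z | Z ∈ Metric.ball q ρ ∧ H Z = w} := ⟨hZ', hw⟩
    rw [hcard] at this
    exact this
  filter_upwards [hd] with w hw
  have h1 : {Z | Z ∈ Metric.ball q ρ ∧ H Z = w}.Nonempty := by
    rw [← encard_ne_zero, hw]
    exact_mod_cast (by omega : d ≠ 0)
  obtain ⟨Z', hZ', hw'⟩ := h1
  exact ⟨Z', hZ', hw'⟩

end Pool.Agent.H48.VG
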