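import Pool.Agent.H95.VG.Targets5
import Pool.Agent.H95.VG.Targets2

/-!
# VG, module SBM: `L¹` bounds for weakly subharmonic functions bounded above
-/

set_option autoImplicit false

open MeasureTheory Set Filter Topology
open scoped ContDiff Convolution

namespace Pool.Agent.H48.VG

open Pool.Agent.H95.VG ContinuousLinearMap

variable {n : ℕ}

/-! ## Derivatives of a convolution -/

lemma smooth_dir {f : V n → ℝ} (hf : ContDiff ℝ ∞ f) (v : V n) :
    ContDiff ℝ ∞ (fun x => fderiv ℝ f x v) := by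
  have h1 : ContDiff ℝ ∞ (fderiv ℝ f) := by
    have := (contDiff_infty_iff_fderiv (𝕜 := ℝ) (f := f)).1 hf
    exact this.2
  exact h1.clm_apply contDiff_const

lemma conv_fderiv {g f : V n → ℝ} (hg : LocallyIntegrable g volume) (hf : ContDiff ℝ 1 f)
    (hc : HasCompactSupport f) (x v : V n) :
    fderiv ℝ (g ⋆[lsmul ℝ ℝ, volume] f) x v
      = (g ⋆[lsmul ℝ ℝ, volume] fun y => fderiv ℝ f y v) x := by
  rw [(hc.hasFDerivAt_convolution_right (lsmul ℝ ℝ) hg hf x).fderiv]
  exact convolution_precompR_apply (lsmul ℝ ℝ) hg (hc.fderiv ℝ) (hf.continuous_fderiv (by norm_num)) x v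

lemma conv_fderiv2 {g f : V n → ℝ} (hg : LocallyIntegrable g volume) (hf : ContDiff ℝ ∞ f)
    (hc : HasCompactSupport f) (x v : V n) :
    fderiv ℝ (fun x => fderiv ℝ (g ⋆[lsmul ℝ ℝ, volume] f) x v) x v
      = (g ⋆[lsmul ℝ ℝ, volume] fun y => fderiv ℝ (fun z => fderiv ℝ f z v) y v) x := by
  have h1 : (fun x => fderiv ℝ (g ⋆[lsmul ℝ ℝ, volume] f) x v)
      = (g ⋆[lsmul ℝ ℝ, volume] fun y => fderiv ℝ f y v) := by
    ext x
    exact conv_fderiv hg (contDiff_infty.1 hf 1) hc x v
  rw [h1]
  exact conv_fderiv hg (contDiff_infty.1 (smooth_dir hf v) 1) (hc.fderiv_apply ℝ v) x v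

lemma lev_conv {g f : V n → ℝ} (hg : LocallyIntegrable g volume) (hf : ContDiff ℝ ∞ f)
    (hc : HasCompactSupport f) (x v : V n) :
    Integrable (fun t => g t * lev f (x - t) v) volume ∧
    lev (g ⋆[lsmul ℝ ℝ, volume] f) x v = ∫ t, g t * lev f (x - t) v := by
  have hex : ∀ u : V n, Integrable (fun t => g t * fderiv ℝ (fun z => fderiv ℝ f z u) (x - t) u)
      volume := by
    intro u
    have h1 : Continuous (fun y => fderiv ℝ (fun z => fderiv ℝ f z u) y u) :=
      (smooth_dir (smooth_dir hf u) u).continuous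
    have h2 : HasCompactSupport (fun y => fderiv ℝ (fun z => fderiv ℝ f z u) y u) :=
      (hc.fderiv_apply ℝ u).fderiv_apply ℝ u
    have h3 := h2.convolutionExists_right (lsmul ℝ ℝ) hg h1 x
    simpa [ConvolutionExistsAt] using h3
  have h1 := hex v
  have h2 := hex (Complex.I • v)
  have h3 : (fun t => g t * lev f (x - t) v) = fun t => (4 : ℝ)⁻¹ *
      (g t * fderiv ℝ (fun z => fderiv ℝ f z v) (x - t) v +
        g t * fderiv ℝ (fun z => fderiv ℝ f z (Complex.I • v)) (x - t) (Complex.I • v)) := by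
    ext t
    unfold lev
    rw [smul_eq_mul]
    ring
  refine ⟨?_, ?_⟩
  · rw [h3]
    exact (h1.add h2).const_mul _
  · rw [h3, integral_const_mul, integral_add h1 h2]
    unfold lev
    rw [conv_fderiv2 hg hf hc, conv_fderiv2 hg hf hc, smul_eq_mul]
    rfl

lemma lev_reflect {f : V n → ℝ} (hf : ContDiff ℝ ∞ f) (x t v : V n) :
    lev (fun t => f (x - t)) t v = lev f (x - t) v := by
  have h1 : ∀ (f : V n → ℝ), ContDiff ℝ ∞ f → ∀ t u : V n,
      fderiv ℝ (fun t => f (x - t)) t u = - fderiv ℝ f (x - t) u := by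
    intro f hf t u
    have h2 : HasFDerivAt f (fderiv ℝ f (x - t)) (x - t) :=
      ((contDiff_infty.1 hf 1).differentiable (by norm_num) (x - t)).hasFDerivAt
    have h3 : HasFDerivAt (fun t : V n => x - t) (-ContinuousLinearMap.id ℝ (V n)) t :=
      (hasFDerivAt_id t).const_sub x
    have h4 : HasFDerivAt (fun t => f (x - t))
        ((fderiv ℝ f (x - t)).comp (-ContinuousLinearMap.id ℝ (V n))) t := h2.comp t h3
    rw [h4.fderiv]
    simp
  have h2 : ∀ u : V n, fderiv ℝ (fun s => fderiv ℝ (fun t => f (x - t)) s u) t u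
      = fderiv ℝ (fun s => fderiv ℝ f s u) (x - t) u := by
    intro u
    have h3 : (fun s => fderiv ℝ (fun t => f (x - t)) s u)
        = fun s => - ((fun y => fderiv ℝ f y u) (x - s)) := by
      ext s
      rw [h1 f hf]
    rw [h3]
    have h4 := h1 (fun y => fderiv ℝ f y u) (smooth_dir hf u) t u
    have h5 : fderiv ℝ (fun s => - ((fun y => fderiv ℝ f y u) (x - s))) t
        = - fderiv ℝ (fun s => ((fun y => fderiv ℝ f y u) (x - s))) t := fderiv_neg
    rw [h5, _root_.neg_apply, h4, neg_neg]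
  unfold lev
  rw [h2, h2]

/-! ## The mollified inequality -/

/-- average of `g` with the kernel `κ` of radius `s` -/
noncomputable def avg (κ g : V n → ℝ) (s : ℝ) (y : V n) : ℝ := ∫ ζ, κ ζ * g (y + s • ζ)

lemma nsq_norm (z : V n) : ‖z‖ ^ 2 ≤ nsq z := by
  have h0 : 0 ≤ nsq z := Finset.sum_nonneg fun i _ => by positivity
  have h1 : ‖z‖ ≤ Real.sqrt (nsq z) := by
    rw [pi_norm_le_iff_of_nonneg (Real.sqrt_nonneg _)]
    intro i
    apply Real.le_sqrt_of_sq_le
    exact Finset.single_le_sum (f := fun i => ‖z i‖ ^ 2) (fun i _ => by positivity)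
      (Finset.mem_univ i)
  calc ‖z‖ ^ 2 ≤ Real.sqrt (nsq z) ^ 2 := by gcongr
    _ = nsq z := Real.sq_sqrt h0

lemma ker_cs {κ Kp : V n → ℝ} (hK : Ker n κ Kp) : HasCompactSupport κ := by
  apply HasCompactSupport.of_support_subset_isCompact (isCompact_closedBall (0 : V n) 1)
  intro z hz
  rw [Metric.mem_closedBall, dist_zero_right]
  by_contra h
  push Not at h
  apply hz
  apply (hK.zero z _).1
  have h1 := nsq_norm z
  nlinarith

lemma ker_nonneg {κ Kp : V n → ℝ} (hK : Ker n κ Kp) (z : V n) : 0 ≤ κ z := by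
  rcases lt_or_ge (nsq z) 1 with h | h
  · exact (hK.pos z h).1.le
  · exact (hK.zero z h).1.ge

lemma ker_bdd {κ Kp : V n → ℝ} (hK : Ker n κ Kp) : ∃ B, ∀ z, ‖κ z‖ ≤ B :=
  (ker_cs hK).exists_bound_of_continuous hK.smooth.1.continuous

lemma comp_affine_integrable {g : V n → ℝ} (hg : Integrable g volume) (y : V n) {s : ℝ}
    (hs : s ≠ 0) : Integrable (fun ζ => g (y + s • ζ)) volume := by
  have h1 : Integrable (fun ζ => g (y + ζ)) volume := hg.comp_add_left y
  exact (integrable_comp_smul_iff volume (fun ζ => g (y + ζ)) hs).2 h1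

lemma avg_integrable {κ Kp : V n → ℝ} (hK : Ker n κ Kp) {g : V n → ℝ} (hg : Integrable g volume)
    (y : V n) {s : ℝ} (hs : s ≠ 0) : Integrable (fun ζ => κ ζ * g (y + s • ζ)) volume := by
  obtain ⟨B, hB⟩ := ker_bdd hK
  exact (comp_affine_integrable hg y hs).bdd_mul
    hK.smooth.1.continuous.aestronglyMeasurable (Eventually.of_forall hB)

lemma avg_continuous {κ Kp : V n → ℝ} (hK : Ker n κ Kp) {g : V n → ℝ} (hg : Integrable g volume)
    {s : ℝ} (hs : 0 < s) : Continuous (avg κ g s) := by
  -- `avg` is a convolution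
  set k : V n → ℝ := fun z => κ (-(s⁻¹ • z)) with hk
  have hkc : Continuous k := by
    have := hK.smooth.1.continuous
    fun_prop
  have hks : HasCompactSupport k := by
    apply HasCompactSupport.of_support_subset_isCompact (isCompact_closedBall (0 : V n) s)
    intro z hz
    rw [Metric.mem_closedBall, dist_zero_right]
    by_contra h
    push Not at h
    apply hz
    apply (hK.zero _ _).1
    have h1 := nsq_norm (-(s⁻¹ • z))
    have h2 : 1 < ‖-(s⁻¹ • z)‖ := by
      rw [norm_neg, norm_smul, Real.norm_eq_abs, abs_of_pos (inv_pos.2 hs)]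
      rw [inv_mul_eq_div, lt_div_iff₀ hs]
      linarith
    nlinarith
  have h1 : avg κ g s = fun y => |(s ^ Module.finrank ℝ (V n))⁻¹| *
      (g ⋆[lsmul ℝ ℝ, volume] k) y := by
    ext y
    have h2 := Measure.integral_comp_smul (volume : Measure (V n))
      (fun ζ => κ (s⁻¹ • ζ) * g (y + ζ)) s
    have h3 : (fun ζ : V n => κ (s⁻¹ • (s • ζ)) * g (y + s • ζ)) = fun ζ => κ ζ * g (y + s • ζ) := by
      ext ζ
      rw [smul_smul, inv_mul_cancel₀ hs.ne', one_smul]
    unfold avg
    rw [← h3, h2, smul_eq_mul]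
    congr 1
    have h4 := integral_add_left_eq_self (μ := (volume : Measure (V n)))
      (fun t => g t * κ (-(s⁻¹ • (y - t)))) y
    have h5 : (g ⋆[lsmul ℝ ℝ, volume] k) y = ∫ t, g t * κ (-(s⁻¹ • (y - t))) := rfl
    rw [h5, ← h4]
    refine integral_congr_ae (Eventually.of_forall fun ζ => ?_)
    have h6 : -(s⁻¹ • (y - (y + ζ))) = s⁻¹ • ζ := by
      rw [← smul_neg]
      congr 1
      abel
    simp only
    rw [h6, mul_comm]
  rw [h1]
  exact continuous_const.mul
    (hks.continuous_convolution_right (lsmul ℝ ℝ) hg.locallyIntegrable hkc)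

lemma conv_comm (f g : V n → ℝ) (x : V n) :
    (f ⋆[lsmul ℝ ℝ, volume] g) x = (g ⋆[lsmul ℝ ℝ, volume] f) x := by
  rw [convolution_lsmul_swap]
  refine integral_congr_ae (Eventually.of_forall fun t => ?_)
  simp only [smul_eq_mul, lsmul_apply]
  rw [mul_comm]

/-- Fubini: averaging commutes with convolution -/
lemma avg_conv {κ Kp : V n → ℝ} (hK : Ker n κ Kp) {g : V n → ℝ} (hg : Integrable g volume)
    (hgm : StronglyMeasurable g) {f : V n → ℝ} (hfc : Continuous f) (hfs : HasCompactSupport f)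
    {s : ℝ} (y : V n) :
    ∫ ζ, κ ζ * (f ⋆[lsmul ℝ ℝ, volume] g) (y + s • ζ)
      = (f ⋆[lsmul ℝ ℝ, volume] (avg κ g s)) y := by
  obtain ⟨Φ, hΦ⟩ := hfs.exists_bound_of_continuous hfc
  have hκ : Integrable κ volume := hK.smooth.1.continuous.integrable_of_hasCompactSupport (ker_cs hK)
  set F : V n → V n → ℝ := fun ζ t => κ ζ * (f t * g (y + s • ζ - t)) with hF
  have hFm : StronglyMeasurable (Function.uncurry F) := by
    have h1 : StronglyMeasurable (fun p : V n × V n => κ p.1) :=
      (hK.smooth.1.continuous.comp continuous_fst).stronglyMeasurable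
    have h2 : StronglyMeasurable (fun p : V n × V n => f p.2) :=
      (hfc.comp continuous_snd).stronglyMeasurable
    have h3 : StronglyMeasurable (fun p : V n × V n => g (y + s • p.1 - p.2)) := by
      apply hgm.comp_measurable
      have : Continuous (fun p : V n × V n => y + s • p.1 - p.2) := by fun_prop
      exact this.measurable
    exact h1.mul (h2.mul h3)
  have hin : ∀ ζ, Integrable (fun t => f t * g (y + s • ζ - t)) volume := by
    intro ζ
    exact (hg.comp_sub_left (y + s • ζ)).bdd_mul hfc.aestronglyMeasurable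
      (Eventually.of_forall hΦ)
  have hFi : Integrable (Function.uncurry F) ((volume : Measure (V n)).prod volume) := by
    rw [integrable_prod_iff hFm.aestronglyMeasurable]
    refine ⟨Eventually.of_forall fun ζ => ?_, ?_⟩
    · have h1 : Integrable (fun t => κ ζ * (f t * g (y + s • ζ - t))) volume :=
        (hin ζ).const_mul _
      exact h1
    have hb : ∀ ζ, ∫ t, ‖Function.uncurry F (ζ, t)‖ ≤ (Φ * ∫ t, ‖g t‖) * ‖κ ζ‖ := by
      intro ζ
      have h1 : ∀ t, ‖Function.uncurry F (ζ, t)‖ ≤ ‖κ ζ‖ * (Φ * ‖g (y + s • ζ - t)‖) := by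
        intro t
        simp only [Function.uncurry, hF]
        rw [norm_mul, norm_mul]
        have := hΦ t
        gcongr
      have h2 : Integrable (fun t => ‖κ ζ‖ * (Φ * ‖g (y + s • ζ - t)‖)) volume :=
        (((hg.comp_sub_left (y + s • ζ)).norm).const_mul _).const_mul _
      calc ∫ t, ‖Function.uncurry F (ζ, t)‖ ≤ ∫ t, ‖κ ζ‖ * (Φ * ‖g (y + s • ζ - t)‖) :=
            integral_mono_of_nonneg (Eventually.of_forall fun t => norm_nonneg _) h2
              (Eventually.of_forall h1)
        _ = ‖κ ζ‖ * (Φ * ∫ t, ‖g (y + s • ζ - t)‖) := by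
            rw [integral_const_mul, integral_const_mul]
        _ = ‖κ ζ‖ * (Φ * ∫ t, ‖g t‖) := by
            rw [integral_sub_left_eq_self (fun t => ‖g t‖) volume (y + s • ζ)]
        _ = _ := by ring
    refine Integrable.mono' (hκ.norm.const_mul (Φ * ∫ t, ‖g t‖)) ?_ ?_
    · exact (hFm.norm.integral_prod_right').aestronglyMeasurable
    · refine Eventually.of_forall fun ζ => ?_
      rw [Real.norm_eq_abs, abs_of_nonneg (integral_nonneg fun t => norm_nonneg _)]
      exact hb ζ
  have h1 : ∫ ζ, κ ζ * (f ⋆[lsmul ℝ ℝ, volume] g) (y + s • ζ) = ∫ ζ, ∫ t, F ζ t := by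
    refine integral_congr_ae (Eventually.of_forall fun ζ => ?_)
    simp only [hF]
    rw [integral_const_mul]
    rfl
  have h2 : (f ⋆[lsmul ℝ ℝ, volume] (avg κ g s)) y = ∫ t, ∫ ζ, F ζ t := by
    refine integral_congr_ae (Eventually.of_forall fun t => ?_)
    have h3 : (fun ζ => F ζ t) = fun ζ => f t * (κ ζ * g ((y - t) + s • ζ)) := by
      ext ζ
      simp only [hF]
      have h4 : y + s • ζ - t = y - t + s • ζ := by abel
      rw [h4]
      ring
    simp only [lsmul_apply, smul_eq_mul]
    rw [h3, integral_const_mul]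
    rfl
  rw [h1, h2]
  exact integral_integral_swap hFi

/-- the mollified mean value inequality -/
lemma step {κ Kp : V n → ℝ} (hK : Ker n κ Kp) {g : V n → ℝ} (hg : Integrable g volume)
    (hgm : StronglyMeasurable g) {R : ℝ} (hR : 0 < R)
    (hsub : ∀ p : V n → ℝ, ContDiff ℝ ∞ p → HasCompactSupport p →
      tsupport p ⊆ Metric.ball (0 : V n) R → (∀ y, 0 ≤ p y) →
      0 ≤ ∫ y, g y * ∑ k, lev p y (ek k))
    (φ : ContDiffBump (0 : V n)) (hφ : φ.rOut < R / 4) {y : V n}
    (hy : y ∈ Metric.ball (0 : V n) (R / 4)) :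
    (φ.normed volume ⋆[lsmul ℝ ℝ, volume] g) y
      ≤ (φ.normed volume ⋆[lsmul ℝ ℝ, volume] (avg κ g (R / 2))) y := by
  set f : V n → ℝ := φ.normed volume with hf
  have hfs : ContDiff ℝ ∞ f := φ.contDiff_normed
  have hfc : HasCompactSupport f := φ.hasCompactSupport_normed
  have hf0 : ∀ x, 0 ≤ f x := fun x => φ.nonneg_normed x
  have hfsupp : Function.support f = Metric.ball (0 : V n) φ.rOut := φ.support_normed_eq
  set A : V n → ℝ := g ⋆[lsmul ℝ ℝ, volume] f with hA
  have hcomm : f ⋆[lsmul ℝ ℝ, volume] g = A := by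
    ext x
    exact conv_comm f g x
  have hgl := hg.locallyIntegrable
  have hAs : ContDiff ℝ ∞ A := hfc.contDiff_convolution_right (lsmul ℝ ℝ) hgl hfs
  have hAs2 : ContDiff ℝ 2 A := by exact_mod_cast contDiff_infty.1 hAs 2
  -- positivity of the Laplacian
  have hpos : ∀ x : V n, ‖x‖ < 3 * R / 4 → 0 ≤ ∑ k, lev A x (ek k) := by
    intro x hx
    set p : V n → ℝ := fun t => f (x - t) with hp
    have hps : ContDiff ℝ ∞ p := hfs.comp (contDiff_const.sub contDiff_id)
    have hpsupp : Function.support p ⊆ Metric.closedBall x φ.rOut := by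
      intro t ht
      have h1 : x - t ∈ Function.support f := ht
      rw [hfsupp, Metric.mem_ball, dist_zero_right] at h1
      rw [Metric.mem_closedBall, dist_comm, dist_eq_norm]
      exact h1.le
    have hpt : tsupport p ⊆ Metric.closedBall x φ.rOut :=
      closure_minimal hpsupp Metric.isClosed_closedBall
    have hpc : HasCompactSupport p :=
      HasCompactSupport.of_support_subset_isCompact (isCompact_closedBall x φ.rOut) hpsupp
    have hpR : tsupport p ⊆ Metric.ball (0 : V n) R := by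
      refine hpt.trans ?_
      intro t ht
      rw [Metric.mem_closedBall] at ht
      rw [Metric.mem_ball]
      have h1 := dist_triangle t x 0
      rw [dist_zero_right x] at h1
      linarith
    have h1 := hsub p hps hpc hpR (fun t => hf0 _)
    have h2 : ∫ t, g t * ∑ k, lev p t (ek k) = ∑ k, lev A x (ek k) := by
      have h3 : ∀ k : Fin n, lev A x (ek k) = ∫ t, g t * lev f (x - t) (ek k) :=
        fun k => (lev_conv hgl hfs hfc x (ek k)).2
      rw [Finset.sum_congr rfl fun k _ => h3 k, ← integral_finsetSum]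
      · refine integral_congr_ae (Eventually.of_forall fun t => ?_)
        simp only
        rw [Finset.mul_sum]
        refine Finset.sum_congr rfl fun k _ => ?_
        rw [hp, lev_reflect hfs]
      · intro k _
        exact (lev_conv hgl hfs hfc x (ek k)).1
    rw [← h2]
    exact h1
  -- the representation formula
  have hrep := hK.rep A y 0 (R / 2) univ isOpen_univ le_rfl (by positivity) (subset_univ _)
    hAs2.contDiffOn
  have hrhs : 0 ≤ 4 * ∫ t in (0 : ℝ)..(R / 2), t * ∫ ζ, Kp ζ * ∑ k, lev A (y + t • ζ) (ek k) := by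
    apply mul_nonneg (by norm_num)
    apply intervalIntegral.integral_nonneg (by positivity)
    intro t ht
    apply mul_nonneg ht.1
    apply integral_nonneg
    intro ζ
    rcases lt_or_ge (nsq ζ) 1 with h | h
    · apply mul_nonneg (hK.pos ζ h).2.le
      apply hpos
      have h1 : ‖ζ‖ < 1 := by
        have := nsq_norm ζ
        nlinarith [norm_nonneg ζ]
      rw [Metric.mem_ball, dist_zero_right] at hy
      calc ‖y + t • ζ‖ ≤ ‖y‖ + ‖t • ζ‖ := norm_add_le _ _
        _ = ‖y‖ + t * ‖ζ‖ := by rw [norm_smul, Real.norm_eq_abs, abs_of_nonneg ht.1]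
        _ ≤ ‖y‖ + R / 2 * 1 := by
            have := ht.2
            gcongr
        _ < _ := by linarith
    · change 0 ≤ Kp ζ * _
      rw [(hK.zero ζ h).2, zero_mul]
  rw [← hrep] at hrhs
  have hAc : Continuous A := hAs.continuous
  have hκc : Continuous κ := hK.smooth.1.continuous
  have hi1 : Integrable (fun ζ => κ ζ * A (y + (R / 2) • ζ)) volume := by
    apply Continuous.integrable_of_hasCompactSupport
    · exact hκc.mul (hAc.comp (by fun_prop))
    · exact (ker_cs hK).mul_right
  have hi2 : Integrable (fun ζ => κ ζ * A y) volume :=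
    (hκc.integrable_of_hasCompactSupport (ker_cs hK)).mul_const _
  have h1 : ∫ ζ, κ ζ * (A (y + (R / 2) • ζ) - A (y + (0 : ℝ) • ζ))
      = (∫ ζ, κ ζ * A (y + (R / 2) • ζ)) - A y := by
    have h2 : (fun ζ : V n => κ ζ * (A (y + (R / 2) • ζ) - A (y + (0 : ℝ) • ζ)))
        = fun ζ => κ ζ * A (y + (R / 2) • ζ) - κ ζ * A y := by
      ext ζ
      rw [zero_smul, add_zero]
      ring
    rw [h2, integral_sub hi1 hi2, integral_mul_const, hK.one, one_mul]
  rw [h1] at hrhs
  have h2 := avg_conv hK hg hgm (f := f) hfs.continuous hfc (s := R / 2) y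
  rw [hcomm] at h2 ⊢
  rw [h2] at hrhs
  linarith

/-- the mean value inequality almost everywhere -/
lemma mean_ae {κ Kp : V n → ℝ} (hK : Ker n κ Kp) {g : V n → ℝ} (hg : Integrable g volume)
    (hgm : StronglyMeasurable g) {R : ℝ} (hR : 0 < R)
    (hsub : ∀ p : V n → ℝ, ContDiff ℝ ∞ p → HasCompactSupport p →
      tsupport p ⊆ Metric.ball (0 : V n) R → (∀ y, 0 ≤ p y) →
      0 ≤ ∫ y, g y * ∑ k, lev p y (ek k)) :
    ∀ᵐ y ∂(volume : Measure (V n)), y ∈ Metric.ball (0 : V n) (R / 4) →
      g y ≤ avg κ g (R / 2) y := by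
  set φ : ℕ → ContDiffBump (0 : V n) := fun i =>
    { rIn := 1 / ((i : ℝ) + 1) / 2
      rOut := 1 / ((i : ℝ) + 1)
      rIn_pos := by positivity
      rIn_lt_rOut := by
        have : 0 < 1 / ((i : ℝ) + 1) := by positivity
        linarith } with hφ
  have hlim : Tendsto (fun i => (φ i).rOut) atTop (𝓝 0) := tendsto_one_div_add_atTop_nhds_zero_nat
  have h1 := ContDiffBump.ae_convolution_tendsto_right_of_locallyIntegrable (μ := volume)
    (φ := φ) (l := atTop) (K := 2) (g := g) hlim
    (Eventually.of_forall fun i => by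
      simp only [hφ]
      linarith) hg.locallyIntegrable
  filter_upwards [h1] with y hy hyb
  have h2 := ContDiffBump.convolution_tendsto_right_of_continuous (μ := volume)
    (φ := φ) (l := atTop) hlim (avg_continuous hK hg (by positivity : 0 < R / 2)) y
  refine le_of_tendsto_of_tendsto hy h2 ?_
  have h3 : ∀ᶠ i in atTop, (φ i).rOut < R / 4 := hlim.eventually (gt_mem_nhds (by positivity))
  filter_upwards [h3] with i hi
  exact step hK hg hgm hR hsub (φ i) hi hyb

theorem sbm (hKER : T_KER) : T_SBM := by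
  intro n hn
  obtain ⟨κ, Kp, hK⟩ := hKER n hn
  have hn0 : (0 : ℝ) < n := by exact_mod_cast hn
  have hn1 : (1 : ℝ) ≤ n := by exact_mod_cast hn
  have hne : Nontrivial (V n) := by
    have : Nonempty (Fin n) := ⟨⟨0, hn⟩⟩
    infer_instance
  -- lower bound for the kernel
  obtain ⟨κ₀, hκ₀, hκ₀'⟩ : ∃ κ₀ : ℝ, 0 < κ₀ ∧ ∀ ζ : V n, nsq ζ ≤ 1 / 4 → κ₀ ≤ κ ζ := by
    have hnc : Continuous (nsq (n := n)) := by
      unfold nsq
      fun_prop
    have hcomp : IsCompact {ζ : V n | nsq ζ ≤ 1 / 4} := by
      apply (isCompact_closedBall (0 : V n) 1).of_isClosed_subset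
      · exact isClosed_le hnc continuous_const
      · intro ζ hζ
        rw [Metric.mem_closedBall, dist_zero_right]
        have h1 := nsq_norm ζ
        have h2 : nsq ζ ≤ 1 / 4 := hζ
        nlinarith [norm_nonneg ζ]
    have hne0 : ({ζ : V n | nsq ζ ≤ 1 / 4}).Nonempty := ⟨0, by simp [nsq]⟩
    obtain ⟨ζ, hζ, hmin⟩ := hcomp.exists_isMinOn hne0 hK.smooth.1.continuous.continuousOn
    refine ⟨κ ζ, (hK.pos ζ ?_).1, fun x hx => hmin hx⟩
    have h2 : nsq ζ ≤ 1 / 4 := hζ
    linarith
  set D : ℕ := Module.finrank ℝ (V n) with hD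
  have hD2 : D = 2 * n := by
    rw [hD, Module.finrank_pi_fintype]
    simp [Complex.finrank_real_complex, mul_comm]
  set vb : ℝ := volume.real (Metric.ball (0 : V n) 1) with hvb
  refine ⟨1 / (8 * n), 2 / κ₀ + vb, by positivity, ?_, by positivity, ?_⟩
  · rw [div_lt_one (by positivity)]
    linarith
  intro R M g₀ S hR hM hg₀ hsub₀ hle₀ hS hSv hSM
  set c : ℝ := 1 / (8 * n) with hc
  have hc0 : 0 < c := by positivity
  have hc8 : c ≤ 1 / 8 := by
    rw [hc]
    apply one_div_le_one_div_of_le (by norm_num)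
    linarith
  -- a nice representative
  obtain ⟨g, hgm, hgi, hgM, hge⟩ : ∃ g : V n → ℝ, StronglyMeasurable g ∧ Integrable g volume ∧
      (∀ y, g y ≤ M) ∧ g =ᵐ[volume] (Metric.ball (0 : V n) R).indicator g₀ := by
    have h1 : Integrable ((Metric.ball (0 : V n) R).indicator g₀) volume :=
      hg₀.integrable_indicator measurableSet_ball
    obtain ⟨g1, hg1m, hg1⟩ := h1.1
    have h2 : (fun y => min (g1 y) M) =ᵐ[volume] (Metric.ball (0 : V n) R).indicator g₀ := by
      have h3 := (ae_restrict_iff' (measurableSet_ball (x := (0 : V n)) (ε := R))).1 hle₀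
      filter_upwards [hg1, h3] with y h4 h5
      rw [← h4]
      by_cases hy : y ∈ Metric.ball (0 : V n) R
      · rw [indicator_of_mem hy]
        exact min_eq_left (h5 hy)
      · rw [indicator_of_notMem hy]
        exact min_eq_left hM
    exact ⟨fun y => min (g1 y) M, hg1m.inf stronglyMeasurable_const,
      h1.congr h2.symm, fun y => min_le_right _ _, h2⟩
  have hgae : ∀ᵐ y ∂(volume : Measure (V n)), y ∈ Metric.ball (0 : V n) R → g y = g₀ y := by
    filter_upwards [hge] with y hy hyb
    rw [hy, indicator_of_mem hyb]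
  have hsub : ∀ p : V n → ℝ, ContDiff ℝ ∞ p → HasCompactSupport p →
      tsupport p ⊆ Metric.ball (0 : V n) R → (∀ y, 0 ≤ p y) →
      0 ≤ ∫ y, g y * ∑ k, lev p y (ek k) := by
    intro p h1 h2 h3 h4
    have h5 := hsub₀ p h1 h2 h3 h4
    have h6 : ∫ y, g y * ∑ k, lev p y (ek k)
        = ∫ y in Metric.ball (0 : V n) R, g₀ y * ∑ k, lev p y (ek k) := by
      rw [← integral_indicator measurableSet_ball]
      refine integral_congr_ae ?_
      filter_upwards [hge] with y hy
      rw [hy]
      by_cases hyb : y ∈ Metric.ball (0 : V n) R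
      · rw [indicator_of_mem hyb, indicator_of_mem hyb]
      · rw [indicator_of_notMem hyb, indicator_of_notMem hyb, zero_mul]
    rw [h6]
    exact h5
  have hmean := mean_ae hK hgi hgm hR hsub
  set s : ℝ := R / 2 with hs
  have hs0 : 0 < s := by positivity
  -- a good point
  obtain ⟨y₁, hy₁S, hy₁⟩ : ∃ y₁ ∈ S, -M ≤ avg κ g s y₁ := by
    by_contra hno
    push Not at hno
    apply hSv
    rw [measure_eq_zero_iff_ae_notMem]
    filter_upwards [hmean, hgae] with y h1 h2 hyS
    have h3 : y ∈ Metric.ball (0 : V n) (c * R) := hS hyS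
    have h4 : y ∈ Metric.ball (0 : V n) (R / 4) :=
      Metric.ball_subset_ball (by nlinarith) h3
    have h5 : y ∈ Metric.ball (0 : V n) R := Metric.ball_subset_ball (by linarith) h4
    have h6 := hno y hyS
    have h7 := h1 h4
    have h8 := hSM y hyS
    rw [h2 h5] at h7
    linarith
  have hy₁b : y₁ ∈ Metric.ball (0 : V n) (c * R) := hS hy₁S
  -- the integral of `M - g`
  have hκi : Integrable κ volume :=
    hK.smooth.1.continuous.integrable_of_hasCompactSupport (ker_cs hK)
  have hai := avg_integrable hK hgi y₁ hs0.ne'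
  have hint1 : Integrable (fun ζ => κ ζ * (M - g (y₁ + s • ζ))) volume := by
    have h1 : (fun ζ => κ ζ * (M - g (y₁ + s • ζ))) = fun ζ => κ ζ * M - κ ζ * g (y₁ + s • ζ) := by
      ext ζ
      ring
    rw [h1]
    exact (hκi.mul_const M).sub hai
  have hval : ∫ ζ, κ ζ * (M - g (y₁ + s • ζ)) ≤ 2 * M := by
    have h1 : (fun ζ => κ ζ * (M - g (y₁ + s • ζ))) = fun ζ => κ ζ * M - κ ζ * g (y₁ + s • ζ) := by
      ext ζ
      ring
    rw [h1, integral_sub (hκi.mul_const M) hai, integral_mul_const, hK.one, one_mul]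
    have h2 : ∫ ζ, κ ζ * g (y₁ + s • ζ) = avg κ g s y₁ := rfl
    rw [h2]
    linarith
  set h : V n → ℝ := (Metric.ball (0 : V n) (c * R)).indicator (fun y => M - g y) with hh
  have hh0 : ∀ y, 0 ≤ h y := by
    intro y
    apply indicator_nonneg
    intro z _
    linarith [hgM z]
  have hbound : ∀ ζ, h (y₁ + s • ζ) ≤ κ₀⁻¹ * (κ ζ * (M - g (y₁ + s • ζ))) := by
    intro ζ
    have h1 : 0 ≤ M - g (y₁ + s • ζ) := by linarith [hgM (y₁ + s • ζ)]
    by_cases hb : y₁ + s • ζ ∈ Metric.ball (0 : V n) (c * R)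
    · rw [hh, indicator_of_mem hb]
      have h2 : nsq ζ ≤ 1 / 4 := by
        have h3 : ‖ζ‖ ≤ 4 * c := by
          have h4 : ‖s • ζ‖ ≤ 2 * (c * R) := by
            have h5 : s • ζ = (y₁ + s • ζ) - y₁ := by abel
            rw [h5]
            rw [Metric.mem_ball, dist_zero_right] at hb hy₁b
            calc ‖(y₁ + s • ζ) - y₁‖ ≤ ‖y₁ + s • ζ‖ + ‖y₁‖ := norm_sub_le _ _
              _ ≤ _ := by linarith
          rw [norm_smul, Real.norm_eq_abs, abs_of_pos hs0, hs] at h4
          have h5 : R / 2 * ‖ζ‖ ≤ R / 2 * (4 * c) := by linarith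
          exact le_of_mul_le_mul_left h5 (by positivity)
        have h4 : nsq ζ ≤ n * ‖ζ‖ ^ 2 := by
          unfold nsq
          calc ∑ i, ‖ζ i‖ ^ 2 ≤ ∑ _i : Fin n, ‖ζ‖ ^ 2 := by
                apply Finset.sum_le_sum
                intro i _
                have := norm_le_pi_norm ζ i
                gcongr
            _ = n * ‖ζ‖ ^ 2 := by simp
        calc nsq ζ ≤ n * ‖ζ‖ ^ 2 := h4
          _ ≤ n * (4 * c) ^ 2 := by gcongr
          _ = 1 / (4 * n) := by
              rw [hc]
              field_simp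
              norm_num
          _ ≤ 1 / 4 := by
              apply one_div_le_one_div_of_le (by norm_num)
              linarith
      have h3 := hκ₀' ζ h2
      calc M - g (y₁ + s • ζ) = κ₀⁻¹ * (κ₀ * (M - g (y₁ + s • ζ))) := by
            rw [← mul_assoc, inv_mul_cancel₀ hκ₀.ne', one_mul]
        _ ≤ κ₀⁻¹ * (κ ζ * (M - g (y₁ + s • ζ))) := by gcongr
    · rw [hh, indicator_of_notMem hb]
      have := ker_nonneg hK ζ
      positivity
  have hball_lt : volume (Metric.ball (0 : V n) (c * R)) < ⊤ := measure_ball_lt_top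
  have hconst : IntegrableOn (fun _ : V n => M) (Metric.ball (0 : V n) (c * R)) volume :=
    integrableOn_const hball_lt.ne
  have hhi : Integrable h volume := by
    have h1 : IntegrableOn (fun y => M - g y) (Metric.ball (0 : V n) (c * R)) volume :=
      hconst.sub hgi.integrableOn
    exact h1.integrable_indicator measurableSet_ball
  have hIh : ∫ y, h y ≤ s ^ D * (κ₀⁻¹ * (2 * M)) := by
    have h1 : ∫ ζ, h (y₁ + s • ζ) = (s ^ D)⁻¹ * ∫ y, h y := by
      have h2 := Measure.integral_comp_smul (volume : Measure (V n)) (fun ζ => h (y₁ + ζ)) s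
      rw [integral_add_left_eq_self h y₁] at h2
      rw [h2, smul_eq_mul, abs_of_pos (by positivity)]
    have h2 : ∫ ζ, h (y₁ + s • ζ) ≤ κ₀⁻¹ * (2 * M) := by
      calc ∫ ζ, h (y₁ + s • ζ) ≤ ∫ ζ, κ₀⁻¹ * (κ ζ * (M - g (y₁ + s • ζ))) :=
            integral_mono_of_nonneg (Eventually.of_forall fun ζ => hh0 _) (hint1.const_mul _)
              (Eventually.of_forall hbound)
        _ = κ₀⁻¹ * ∫ ζ, κ ζ * (M - g (y₁ + s • ζ)) := integral_const_mul _ _
        _ ≤ _ := by gcongr
    have h3 : ∫ y, h y = s ^ D * ∫ ζ, h (y₁ + s • ζ) := by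
      rw [h1, ← mul_assoc, mul_inv_cancel₀ (by positivity), one_mul]
    rw [h3]
    gcongr
  -- conclusion
  have hsubb : Metric.ball (0 : V n) (c * R) ⊆ Metric.ball (0 : V n) R :=
    Metric.ball_subset_ball (by nlinarith)
  have hfin : ∫ y in Metric.ball (0 : V n) (c * R), |g₀ y|
      ≤ ∫ y in Metric.ball (0 : V n) (c * R), ((M - g y) + M) := by
    apply integral_mono_ae
    · exact (hg₀.mono_set hsubb).norm
    · exact (hconst.sub hgi.integrableOn).add hconst
    · have h1 : ∀ᵐ y ∂(volume.restrict (Metric.ball (0 : V n) (c * R))),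
          y ∈ Metric.ball (0 : V n) (c * R) → g y = g₀ y := by
        apply ae_restrict_of_ae
        filter_upwards [hgae] with y hy hyb
        exact hy (hsubb hyb)
      filter_upwards [h1, ae_restrict_mem measurableSet_ball] with y hy hyb
      rw [← hy hyb]
      have h2 := hgM y
      rw [abs_le]
      constructor <;> linarith
  have h1 : ∫ y in Metric.ball (0 : V n) (c * R), ((M - g y) + M)
      = (∫ y, h y) + M * volume.real (Metric.ball (0 : V n) (c * R)) := by
    have h0 : ∫ y in Metric.ball (0 : V n) (c * R), ((M - g y) + M)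
        = (∫ y in Metric.ball (0 : V n) (c * R), (M - g y))
          + ∫ _y in Metric.ball (0 : V n) (c * R), M :=
      integral_add (f := fun y => M - g y) (g := fun _ => M)
        (hconst.sub hgi.integrableOn) hconst
    rw [h0, hh, integral_indicator measurableSet_ball, setIntegral_const, smul_eq_mul, mul_comm M]
  have h2 : volume.real (Metric.ball (0 : V n) (c * R)) ≤ R ^ D * vb := by
    have h3 : volume (Metric.ball (0 : V n) (c * R))
        = ENNReal.ofReal ((c * R) ^ D) * volume (Metric.ball (0 : V n) 1) :=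
      Measure.addHaar_ball volume 0 (by positivity)
    rw [measureReal_def, h3, ENNReal.toReal_mul, ENNReal.toReal_ofReal (by positivity)]
    have h4 : (c * R) ^ D ≤ R ^ D := by
      apply pow_le_pow_left₀ (by positivity)
      nlinarith
    have h5 : 0 ≤ (volume (Metric.ball (0 : V n) 1)).toReal := ENNReal.toReal_nonneg
    exact mul_le_mul_of_nonneg_right h4 h5
  have h3 : s ^ D ≤ R ^ D := by
    apply pow_le_pow_left₀ (by positivity)
    rw [hs]
    linarith
  calc ∫ y in Metric.ball (0 : V n) (c * R), |g₀ y|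
      ≤ (∫ y, h y) + M * volume.real (Metric.ball (0 : V n) (c * R)) := by
        rw [← h1]
        exact hfin
    _ ≤ R ^ D * (κ₀⁻¹ * (2 * M)) + M * (R ^ D * vb) := by
        apply add_le_add
        · refine hIh.trans ?_
          gcongr
        · gcongr
    _ = (2 / κ₀ + vb) * R ^ (2 * n) * M := by
        rw [hD2]
        ring

end Pool.Agent.H48.VG
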