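import Pool.Agent.H95.VG.Targets5

/-!
# VG, module VDM: Vandermonde extraction
-/

set_option autoImplicit false

namespace Pool.Agent.H48.VG

open Finset Polynomial Pool.Agent.H95.VG

theorem vdm : T_VDM := by
  intro n e he
  set v : Fin (n + 1) → ℂ := fun i => ((e i : ℝ) : ℂ) with hv
  have hvi : Function.Injective v := fun i j h => he (Complex.ofReal_injective h)
  set c : Fin (n + 1) → ℂ := fun i => (Lagrange.basis univ v i).coeff n with hc
  refine ⟨∑ i, ‖c i‖ ^ 2 + 1, by positivity, ?_⟩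
  intro M M'
  set p : ℂ[X] := ((X : ℂ[X]) • M'.map C + M.map C).det with hp
  have hdeg : p.natDegree ≤ n := by
    have := Polynomial.natDegree_det_X_add_C_le M' M
    rwa [Fintype.card_fin] at this
  have hco : p.coeff n = M'.det := by
    have := Polynomial.coeff_det_X_add_C_card M' M
    rwa [Fintype.card_fin] at this
  have hev : ∀ i, p.eval (v i) = (M + ((e i : ℝ) : ℂ) • M').det := by
    intro i
    rw [hp, ← Polynomial.coe_evalRingHom, RingHom.map_det]
    congr 1
    ext a b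
    simp only [hv, RingHom.mapMatrix_apply, Matrix.map_apply, Matrix.add_apply, Matrix.smul_apply,
      smul_eq_mul, Polynomial.coe_evalRingHom, eval_add, eval_mul, eval_X, eval_C]
    ring
  have hint : p = Lagrange.interpolate univ v (fun i => p.eval (v i)) := by
    apply Lagrange.eq_interpolate
    · exact hvi.injOn
    · rw [card_univ, Fintype.card_fin]
      refine lt_of_le_of_lt Polynomial.degree_le_natDegree ?_
      exact_mod_cast Nat.lt_succ_of_le hdeg
  have hsum : M'.det = ∑ i, (M + ((e i : ℝ) : ℂ) • M').det * c i := by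
    rw [← hco, hint, Lagrange.interpolate_apply, Polynomial.finsetSum_coeff]
    refine sum_congr rfl fun i _ => ?_
    rw [Polynomial.coeff_C_mul, hev]
  have h1 : ‖M'.det‖ ≤ ∑ i, ‖c i‖ * ‖(M + ((e i : ℝ) : ℂ) • M').det‖ := by
    rw [hsum]
    refine (norm_sum_le _ _).trans (sum_le_sum fun i _ => ?_)
    rw [norm_mul, mul_comm]
  have h2 := Finset.sum_mul_sq_le_sq_mul_sq univ (fun i => ‖c i‖)
    (fun i => ‖(M + ((e i : ℝ) : ℂ) • M').det‖)
  calc ‖M'.det‖ ^ 2 ≤ (∑ i, ‖c i‖ * ‖(M + ((e i : ℝ) : ℂ) • M').det‖) ^ 2 := by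
        gcongr
    _ ≤ (∑ i, ‖c i‖ ^ 2) * ∑ i, ‖(M + ((e i : ℝ) : ℂ) • M').det‖ ^ 2 := h2
    _ ≤ (∑ i, ‖c i‖ ^ 2 + 1) * ∑ i, ‖(M + ((e i : ℝ) : ℂ) • M').det‖ ^ 2 := by
        gcongr
        linarith

end Pool.Agent.H48.VG
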